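import Pool.Agent.Helper49K9.AT.Main

/-!
The critical FK interface for `q = 1` (bond percolation with `p = 1 / 2`) in the rectangle of the
question, of bounded aspect ratio, with the left and lower sides wired and the right and upper
sides free: the lower tails of the areas of the two sides of the interface. For `1 ≤ h ≤ c m`, the
probability that the area of the free side is at most `4 (K + 1) h m`, and the probability that the
interface stays within distance `h` of the free sides, are `exp (-Θ (m / h))`, and the same for the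
wired side; for `C / m ≤ ε ≤ c`, the probability that a given side has relative area at most `ε` is
`exp (-Θ (1 / ε))`.
-/

namespace Pool.Agent.Results.MP_216314_pr.AreaTails

open Finset

/-- Vertices of the square lattice. -/
abbrev Vertex := ℤ × ℤ

/-- Faces of the square lattice: `(x, y)` is the square `[x, x + 1] × [y, y + 1]`. -/
abbrev Face := ℤ × ℤ

/-- Edges: `(x, y, true)` joins `(x, y)` to `(x + 1, y)` and `(x, y, false)` joins `(x, y)` to
`(x, y + 1)`. -/
abbrev Edge := ℤ × ℤ × Bool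

/-- First endpoint of an edge. -/
def src (e : Edge) : Vertex := (e.1, e.2.1)

/-- Second endpoint of an edge. -/
def tgt (e : Edge) : Vertex := if e.2.2 then (e.1 + 1, e.2.1) else (e.1, e.2.1 + 1)

/-- The face below or to the left of an edge. -/
def lface (e : Edge) : Face := if e.2.2 then (e.1, e.2.1 - 1) else (e.1 - 1, e.2.1)

/-- The face above or to the right of an edge. -/
def rface (e : Edge) : Face := (e.1, e.2.1)

/-- `u` and `v` are joined by an edge of `F`. -/
def Adj (F : Set Edge) (u v : Vertex) : Prop :=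
  ∃ e ∈ F, (src e = u ∧ tgt e = v) ∨ (src e = v ∧ tgt e = u)

/-- `u` and `v` are joined by a path of edges of `F`. -/
def Conn (F : Set Edge) (u v : Vertex) : Prop := Relation.ReflTransGen (Adj F) u v

/-- The faces `f` and `g` are separated by an edge of `F`. -/
def DualAdj (F : Set Edge) (f g : Face) : Prop :=
  ∃ e ∈ F, (lface e = f ∧ rface e = g) ∨ (lface e = g ∧ rface e = f)

/-- `f` and `g` are joined by a dual path which crosses edges of `F` only. -/
def DualConn (F : Set Edge) (f g : Face) : Prop := Relation.ReflTransGen (DualAdj F) f g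

/-- The edges of the rectangle `[0, m] × [0, n]`. -/
noncomputable def rect (m n : ℕ) : Finset Edge :=
  (Finset.Icc (0 : ℤ) m ×ˢ Finset.Icc (0 : ℤ) n ×ˢ (Finset.univ : Finset Bool)).filter
    (fun e => (tgt e).1 ≤ m ∧ (tgt e).2 ≤ n)

/-- `u` is a vertex of the left or of the lower side of `[0, m] × [0, n]`. -/
def WiredSide (m n : ℕ) (u : Vertex) : Prop :=
  (u.1 = 0 ∧ 0 ≤ u.2 ∧ u.2 ≤ n) ∨ (u.2 = 0 ∧ 0 ≤ u.1 ∧ u.1 ≤ m)

/-- `f` is one of the faces next to `[0, m] × [0, n]`, across the right or the upper side. -/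
def FreeSide (m n : ℕ) (f : Face) : Prop :=
  (f.1 = m ∧ 0 ≤ f.2 ∧ f.2 < n) ∨ (f.2 = n ∧ 0 ≤ f.1 ∧ f.1 < m)

/-- The dual cluster of the free sides. -/
def free (m n : ℕ) (F : Finset Edge) : Set Face :=
  {f | ∃ g, FreeSide m n g ∧ DualConn (↑(rect m n \ F) : Set Edge) g f}

/-- The edges of the rectangle which are crossed by the dual cluster of the free sides: the closed
edges whose two faces belong to this cluster. -/
def crossed (m n : ℕ) (F : Finset Edge) : Set Edge :=
  {e | e ∈ rect m n ∧ e ∉ F ∧ lface e ∈ free m n F ∧ rface e ∈ free m n F}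

/-- The vertex `v` lies on the same side of the interface as the wired sides: it can be joined to
the wired sides by a path of the rectangle which does not cross the dual cluster of the free
sides. -/
def OnWiredSide (m n : ℕ) (v : Vertex) (F : Finset Edge) : Prop :=
  ∃ u, WiredSide m n u ∧ Conn (↑(rect m n) \ crossed m n F) u v

/-- The vertex `v` lies on the same side of the interface as the free sides: it is separated from
the wired sides by the dual cluster of the free sides. -/
def OnFreeSide (m n : ℕ) (v : Vertex) (F : Finset Edge) : Prop := ¬ OnWiredSide m n v F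

open Classical in
/-- The probability of `E` when every edge of the rectangle `[0, m] × [0, n]` is open with
probability `1 / 2` independently (the critical FK measure for `q = 1`); `F` is the set of the
open edges. -/
noncomputable def prob (m n : ℕ) (E : Finset Edge → Prop) : ℝ :=
  (((rect m n).powerset.filter E).card : ℝ) / 2 ^ (rect m n).card

open Classical in
/-- The area of the wired side: the number of the vertices of the rectangle which lie on the wired
side of the interface. -/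
noncomputable def wiredArea (m n : ℕ) (F : Finset Edge) : ℕ :=
  ((Finset.Icc (0 : ℤ) m ×ˢ Finset.Icc (0 : ℤ) n).filter (fun v => OnWiredSide m n v F)).card

open Classical in
/-- The area of the free side: the number of the vertices of the rectangle which lie on the free
side of the interface. -/
noncomputable def freeArea (m n : ℕ) (F : Finset Edge) : ℕ :=
  ((Finset.Icc (0 : ℤ) m ×ˢ Finset.Icc (0 : ℤ) n).filter (fun v => OnFreeSide m n v F)).card

/-- The interface stays within distance `h` of the free sides: every vertex at distance larger than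
`h` from the right and the upper side is on the wired side. -/
def NearFreeSides (m n h : ℕ) (F : Finset Edge) : Prop :=
  ∀ x y : ℕ, x + h < m → y + h < n → OnWiredSide m n ((x : ℤ), (y : ℤ)) F

/-- The interface stays within distance `h` of the wired sides: every vertex at distance larger
than `h` from the left and the lower side is on the free side. -/
def NearWiredSides (m n h : ℕ) (F : Finset Edge) : Prop :=
  ∀ x y : ℕ, h < x → x ≤ m → h < y → y ≤ n → OnFreeSide m n ((x : ℤ), (y : ℤ)) F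

theorem rect_eq (m n : ℕ) : rect m n = H974.RE 0 m 0 n := by
  ext e
  obtain ⟨x, y, _ | _⟩ := e
  · rw [H974.mem_RE_false]
    unfold rect
    rw [Finset.mem_filter]
    simp only [tgt, Finset.mem_product, Finset.mem_Icc,
      Finset.mem_univ, and_true, Bool.false_eq_true, if_false]
    omega
  · rw [H974.mem_RE_true]
    unfold rect
    rw [Finset.mem_filter]
    simp only [tgt, Finset.mem_product, Finset.mem_Icc,
      Finset.mem_univ, and_true, if_true]
    omega

theorem prob_eq (m n : ℕ) (E E' : Finset Edge → Prop)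
    (h : ∀ F, F ⊆ H974.RE 0 m 0 n → (E F ↔ E' F)) :
    prob m n E = H731C.P2 (H974.RE 0 m 0 n) E' := by
  unfold prob H731C.P2 H974.Pr
  rw [H973.Ex_half, rect_eq, Finset.card_filter]
  push_cast
  rw [div_eq_mul_inv, mul_comm]
  congr 1
  · rw [one_div, inv_pow]
  · apply Finset.sum_congr rfl
    intro F hF
    have hF' : F ⊆ H974.RE 0 m 0 n := Finset.mem_powerset.mp hF
    unfold H974.ind
    by_cases h5 : E F
    · rw [if_pos h5, if_pos ((h F hF').mp h5)]
    · rw [if_neg h5, if_neg (fun h6 => h5 ((h F hF').mpr h6))]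

theorem wired_iff {m n : ℕ} (hm : 1 ≤ m) (hn : 1 ≤ n) (u : Vertex) :
    WiredSide m n u ↔ ∃ i : ℤ, (-(n : ℤ) ≤ i ∧ i ≤ m) ∧ H731A.bd m n i = u := by
  have hm' : (1 : ℤ) ≤ m := by exact_mod_cast hm
  have hn' : (1 : ℤ) ≤ n := by exact_mod_cast hn
  constructor
  · rintro (⟨h1, h2, h3⟩ | ⟨h1, h2, h3⟩)
    · refine ⟨-u.2, by omega, ?_⟩
      rw [H731A.bd_neg hm' hn' (by omega) (by omega), neg_neg, ← h1]
    · refine ⟨u.1, by omega, ?_⟩
      rw [H731A.bd_bot hm' hn' h2 h3, ← h1]
  · rintro ⟨i, hi, rfl⟩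
    rcases le_total i 0 with h | h
    · rw [H731A.bd_neg hm' hn' hi.1 h]
      exact Or.inl ⟨rfl, show (0 : ℤ) ≤ -i by omega, show -i ≤ n by omega⟩
    · rw [H731A.bd_bot hm' hn' h hi.2]
      exact Or.inr ⟨rfl, h, hi.2⟩

theorem free_iff {m n : ℕ} (hm : 1 ≤ m) (hn : 1 ≤ n) (f : Face) :
    FreeSide m n f ↔ ∃ j : ℤ, ((m : ℤ) ≤ j ∧ j < -(n : ℤ) + 2 * (m + n)) ∧
      H731A.ofc m n j = f := by
  have hm' : (1 : ℤ) ≤ m := by exact_mod_cast hm
  have hn' : (1 : ℤ) ≤ n := by exact_mod_cast hn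
  constructor
  · rintro (⟨h1, h2, h3⟩ | ⟨h1, h2, h3⟩)
    · refine ⟨m + f.2, by omega, ?_⟩
      rw [H731A.DPar.ofc_right hm' hn' (by omega) (by omega)]
      ext
      · exact h1.symm
      · show (m : ℤ) + f.2 - m = f.2; ring
    · refine ⟨2 * m + n - f.1 - 1, by omega, ?_⟩
      rw [H731A.DPar.ofc_top hm' hn' (by omega) (by omega)]
      ext
      · show 2 * (m : ℤ) + n - (2 * m + n - f.1 - 1) - 1 = f.1; ring
      · exact h1.symm
  · rintro ⟨j, hj, rfl⟩
    rcases lt_or_ge j (m + n) with h | h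
    · rw [H731A.DPar.ofc_right hm' hn' hj.1 h]
      exact Or.inl ⟨rfl, show (0 : ℤ) ≤ j - m by omega, show j - m < n by omega⟩
    · rw [H731A.DPar.ofc_top hm' hn' h (by omega)]
      exact Or.inr ⟨rfl, show (0 : ℤ) ≤ 2 * m + n - j - 1 by omega,
        show 2 * (m : ℤ) + n - j - 1 < m by omega⟩

theorem FB_iff {m n : ℕ} (hm : 1 ≤ m) (hn : 1 ≤ n) {F : Finset Edge} (f : Face) :
    f ∈ free m n F ↔ H731G.FB m n (-(n : ℤ)) m f F := by
  have e2 : ((↑F : Set H974.Edg)ᶜ ∩ ↑(H974.RE 0 m 0 n)) = ↑(rect m n \ F) := by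
    rw [rect_eq, Finset.coe_sdiff, Set.sdiff_eq, Set.inter_comm]
  constructor
  · rintro ⟨g, hg, h⟩
    obtain ⟨j, hj, rfl⟩ := (free_iff hm hn g).1 hg
    refine ⟨j, hj, ?_⟩
    rw [e2]; exact h
  · rintro ⟨j, hj, h⟩
    rw [e2] at h
    exact ⟨_, (free_iff hm hn _).2 ⟨j, hj, rfl⟩, h⟩

theorem side_iff {m n : ℕ} (hm : 1 ≤ m) (hn : 1 ≤ n) {F : Finset Edge} (v : Vertex) :
    OnWiredSide m n v F ↔ H49LP.WS m n (-(n : ℤ)) m v F := by
  have e : (↑(rect m n) \ crossed m n F : Set Edge) =
      ↑(H974.RE 0 m 0 n \ H49LP.bar m n (-(n : ℤ)) m F) := by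
    ext e
    rw [Set.mem_sdiff, Finset.mem_coe, Finset.mem_coe, Finset.mem_sdiff, H49LP.mem_bar, rect_eq]
    unfold crossed
    rw [Set.mem_ofPred_eq, rect_eq, FB_iff hm hn, FB_iff hm hn]
    rfl
  constructor
  · rintro ⟨u, hu, h⟩
    obtain ⟨i, hi, rfl⟩ := (wired_iff hm hn u).1 hu
    refine ⟨i, hi, ?_⟩
    rw [← e]; exact h
  · rintro ⟨i, hi, h⟩
    rw [← e] at h
    exact ⟨_, (wired_iff hm hn _).2 ⟨i, hi, rfl⟩, h⟩

theorem wiredArea_eq {m n : ℕ} (hm : 1 ≤ m) (hn : 1 ≤ n) (F : Finset Edge) :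
    wiredArea m n F = H49AT.wa m n F := by
  unfold wiredArea H49AT.wa H49AT.vs
  refine congrArg Finset.card (Finset.ext fun v => ?_)
  simp only [Finset.mem_filter, side_iff hm hn]

theorem freeArea_eq {m n : ℕ} (hm : 1 ≤ m) (hn : 1 ≤ n) (F : Finset Edge) :
    freeArea m n F = H49AT.fa m n F := by
  unfold freeArea H49AT.fa H49AT.vs OnFreeSide
  refine congrArg Finset.card (Finset.ext fun v => ?_)
  simp only [Finset.mem_filter, side_iff hm hn]

theorem near_iff {m n h : ℕ} (hm : 1 ≤ m) (hn : 1 ≤ n) (F : Finset Edge) :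
    NearFreeSides m n h F ↔ H49AT.NF m n h F := by
  constructor
  · intro H x y hx hy hxm hyn
    lift x to ℕ using hx
    lift y to ℕ using hy
    exact (side_iff hm hn _).1 (H x y (by exact_mod_cast hxm) (by exact_mod_cast hyn))
  · intro H x y hx hy
    exact (side_iff hm hn _).2 (H x y (Int.natCast_nonneg x) (Int.natCast_nonneg y)
      (by exact_mod_cast hx) (by exact_mod_cast hy))

theorem nearW_iff {m n h : ℕ} (hm : 1 ≤ m) (hn : 1 ≤ n) (F : Finset Edge) :
    NearWiredSides m n h F ↔ H49AT.NW m n h F := by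
  constructor
  · intro H x y hx hy hxm hyn
    have hx0 : 0 ≤ x := by have := Int.natCast_nonneg h; omega
    have hy0 : 0 ≤ y := by have := Int.natCast_nonneg h; omega
    lift x to ℕ using hx0
    lift y to ℕ using hy0
    exact fun h1 => H x y (by exact_mod_cast hx) (by exact_mod_cast hxm) (by exact_mod_cast hy)
      (by exact_mod_cast hyn) ((side_iff hm hn _).2 h1)
  · intro H x y hx hxm hy hyn h1
    exact H x y (by exact_mod_cast hx) (by exact_mod_cast hy) (by exact_mod_cast hxm)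
      (by exact_mod_cast hyn) ((side_iff hm hn _).1 h1)

theorem tails (K : ℕ) : ∃ c C : ℝ, 0 < c ∧ 0 < C ∧ ∀ m n h : ℕ, 1 ≤ m → 1 ≤ n →
    m ≤ K * n → n ≤ K * m → 1 ≤ h → (h : ℝ) ≤ c * m →
    (Real.exp (-(C * (m / h))) ≤ prob m n (NearFreeSides m n h) ∧
      prob m n (NearFreeSides m n h) ≤
        prob m n (fun F => freeArea m n F ≤ 4 * (K + 1) * h * m) ∧
      prob m n (fun F => freeArea m n F ≤ 4 * (K + 1) * h * m) ≤ Real.exp (-(c * (m / h)))) ∧
    (Real.exp (-(C * (m / h))) ≤ prob m n (NearWiredSides m n h) ∧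
      prob m n (NearWiredSides m n h) ≤
        prob m n (fun F => wiredArea m n F ≤ 4 * (K + 1) * h * m) ∧
      prob m n (fun F => wiredArea m n F ≤ 4 * (K + 1) * h * m) ≤
        Real.exp (-(c * (m / h)))) := by
  obtain ⟨c, C, hc, hC, H⟩ := H49AT.main K
  refine ⟨c, C, hc, hC, ?_⟩
  intro m n h hm hn h1 h2 hh hhc
  have e1 := prob_eq m n (NearFreeSides m n h) (H49AT.NF m n h) (fun F _ => near_iff hm hn F)
  have e2 := prob_eq m n (NearWiredSides m n h) (H49AT.NW m n h) (fun F _ => nearW_iff hm hn F)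
  have e3 := prob_eq m n (fun F => freeArea m n F ≤ 4 * (K + 1) * h * m)
    (fun F => (H49AT.fa m n F : ℤ) ≤ 4 * (K + 1) * h * m) (fun F _ => by
      rw [freeArea_eq hm hn]
      exact_mod_cast Iff.rfl)
  have e4 := prob_eq m n (fun F => wiredArea m n F ≤ 4 * (K + 1) * h * m)
    (fun F => (H49AT.wa m n F : ℤ) ≤ 4 * (K + 1) * h * m) (fun F _ => by
      rw [wiredArea_eq hm hn]
      exact_mod_cast Iff.rfl)
  rw [e1, e2, e3, e4]
  have := H m n h (by exact_mod_cast hm) (by exact_mod_cast hn) (by exact_mod_cast h1)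
    (by exact_mod_cast h2) (by exact_mod_cast hh) (by exact_mod_cast hhc)
  simpa only [Int.cast_natCast] using this

theorem prob_mono (m n : ℕ) {E E' : Finset Edge → Prop} (h : ∀ F, E F → E' F) :
    prob m n E ≤ prob m n E' := by
  classical
  unfold prob
  refine div_le_div_of_nonneg_right ?_ (by positivity)
  have h1 : ((rect m n).powerset.filter E).card ≤ ((rect m n).powerset.filter E').card :=
    Finset.card_le_card (Finset.monotone_filter_right _ fun F _ => h F)
  exact_mod_cast h1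

/-- from the scale `h` to the relative area `ε` -/
theorem scale (K m n : ℕ) (hm : 1 ≤ m) (hn : 1 ≤ n) (h1 : m ≤ K * n) (h2 : n ≤ K * m)
    (a : Finset Edge → ℕ) (c₀ C₀ C : ℝ) (hc₀ : 0 < c₀) (hC₀ : 0 < C₀)
    (hC : 8 * K * (K + 1) * C₀ + 4 * K * (K + 1) + 1 ≤ C)
    (H : ∀ h : ℕ, 1 ≤ h → (h : ℝ) ≤ c₀ * m →
      Real.exp (-(C₀ * (m / h))) ≤ prob m n (fun F => a F ≤ 4 * (K + 1) * h * m) ∧
      prob m n (fun F => a F ≤ 4 * (K + 1) * h * m) ≤ Real.exp (-(c₀ * (m / h))))
    (ε : ℝ) (e1 : C / m ≤ ε) (e2 : ε ≤ c₀ / 2) :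
    Real.exp (-(C / ε)) ≤ prob m n (fun F => (a F : ℝ) ≤ ε * ((m + 1) * (n + 1))) ∧
      prob m n (fun F => (a F : ℝ) ≤ ε * ((m + 1) * (n + 1))) ≤ Real.exp (-(c₀ / 2 / ε)) := by
  have hK : 1 ≤ K := by
    rcases Nat.eq_zero_or_pos K with h | h
    · rw [h] at h1
      omega
    · exact h
  have hKr : (1 : ℝ) ≤ K := by exact_mod_cast hK
  have hmr : (1 : ℝ) ≤ m := by exact_mod_cast hm
  have hnr : (1 : ℝ) ≤ n := by exact_mod_cast hn
  have h1r : (m : ℝ) ≤ K * n := by exact_mod_cast h1
  have h2r : (n : ℝ) ≤ K * m := by exact_mod_cast h2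
  have hKK : (0 : ℝ) < 4 * K * (K + 1) := by positivity
  have hC1 : 4 * (K : ℝ) * (K + 1) ≤ C := by
    have : (0 : ℝ) ≤ 8 * K * (K + 1) * C₀ := by positivity
    linarith
  have hC2 : 8 * (K : ℝ) * (K + 1) * C₀ ≤ C := by linarith
  have hC3 : 1 ≤ C := by
    have : (0 : ℝ) ≤ 8 * K * (K + 1) * C₀ := by positivity
    linarith
  have hm0 : (0 : ℝ) < m := by linarith
  have hε : 0 < ε := lt_of_lt_of_le (by positivity) e1
  have hεm : C ≤ ε * m := by
    rw [div_le_iff₀ hm0] at e1
    exact e1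
  constructor
  · -- lower bound
    obtain ⟨u, hu⟩ : ∃ u : ℝ, u = ε * m / (4 * K * (K + 1)) := ⟨_, rfl⟩
    have hu1 : 1 ≤ u := by
      rw [hu, le_div_iff₀ hKK]
      linarith
    obtain ⟨h, hh⟩ : ∃ h : ℕ, h = ⌊u⌋₊ := ⟨_, rfl⟩
    have hh1 : 1 ≤ h := by
      rw [hh]
      exact Nat.le_floor (by exact_mod_cast hu1)
    have hh2 : (h : ℝ) ≤ u := by
      rw [hh]
      exact Nat.floor_le (by linarith)
    have hh3 : u < h + 1 := by
      rw [hh]
      exact Nat.lt_floor_add_one u
    have hhr : (1 : ℝ) ≤ h := by exact_mod_cast hh1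
    have hu2 : u ≤ 2 * h := by linarith
    have huK : u * (4 * K * (K + 1)) = ε * m := by
      rw [hu]
      field_simp
    have hu3 : u ≤ ε * m := by
      have : u * 1 ≤ u * (4 * K * (K + 1)) := by
        refine mul_le_mul_of_nonneg_left ?_ (by linarith)
        nlinarith
      linarith
    have hu4 : ε * m ≤ c₀ * m := by
      refine mul_le_mul_of_nonneg_right ?_ hm0.le
      linarith
    have g := (H h hh1 (by linarith)).1
    refine le_trans ?_ (g.trans (prob_mono m n fun F hF => ?_))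
    · refine Real.exp_le_exp.2 (neg_le_neg ?_)
      rw [mul_div_assoc', div_le_div_iff₀ (by linarith) hε]
      -- `C₀ m ε ≤ C h`
      have k1 : 8 * (K : ℝ) * (K + 1) * C₀ * h ≤ C * h :=
        mul_le_mul_of_nonneg_right hC2 (by linarith)
      have k2 : C₀ * (ε * m) ≤ 8 * (K : ℝ) * (K + 1) * C₀ * h := by
        rw [← huK]
        have k3 : C₀ * (u * (4 * K * (K + 1))) = (4 * K * (K + 1) * C₀) * u := by ring
        have k4 : 8 * (K : ℝ) * (K + 1) * C₀ * h = (4 * K * (K + 1) * C₀) * (2 * h) := by ring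
        rw [k3, k4]
        exact mul_le_mul_of_nonneg_left hu2 (by positivity)
      linarith
    · have k1 : (a F : ℝ) ≤ 4 * (K + 1) * h * m := by exact_mod_cast hF
      have k2 : 4 * ((K : ℝ) + 1) * h * m ≤ 4 * (K + 1) * u * m := by
        refine mul_le_mul_of_nonneg_right ?_ hm0.le
        exact mul_le_mul_of_nonneg_left hh2 (by positivity)
      have k3 : (4 * ((K : ℝ) + 1) * u * m) * K = ε * m * m := by
        have : (4 * ((K : ℝ) + 1) * u * m) * K = u * (4 * K * (K + 1)) * m := by ring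
        rw [this, huK]
      have k4 : ε * m * m ≤ (ε * ((m + 1) * (n + 1))) * K := by
        have k5 : ε * m * m ≤ ε * m * (K * n) :=
          mul_le_mul_of_nonneg_left h1r (by positivity)
        have k6 : (0 : ℝ) ≤ ε * K * (m + n + 1) := by positivity
        nlinarith
      have k7 : (4 * ((K : ℝ) + 1) * u * m) * K ≤ (ε * ((m + 1) * (n + 1))) * K := by
        rw [k3]
        exact k4
      have k8 := le_of_mul_le_mul_right k7 (by linarith)
      linarith
  · -- upper bound
    obtain ⟨h, hh⟩ : ∃ h : ℕ, h = ⌈ε * m⌉₊ := ⟨_, rfl⟩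
    have hh1 : ε * m ≤ h := by
      rw [hh]
      exact Nat.le_ceil _
    have hh2 : (h : ℝ) < ε * m + 1 := by
      rw [hh]
      exact Nat.ceil_lt_add_one (by positivity)
    have hhr : (1 : ℝ) ≤ h := by linarith
    have hh3 : (h : ℝ) ≤ 2 * (ε * m) := by linarith
    have hh4 : (h : ℝ) ≤ c₀ * m := by
      have : 2 * (ε * m) ≤ 2 * (c₀ / 2 * m) :=
        mul_le_mul_of_nonneg_left (mul_le_mul_of_nonneg_right e2 hm0.le) (by norm_num)
      linarith
    have g := (H h (by exact_mod_cast hhr) hh4).2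
    refine (prob_mono m n fun F hF => ?_).trans (g.trans ?_)
    · have k1 : ((m : ℝ) + 1) * (n + 1) ≤ 4 * K * m * m := by
        have a1 : ((m : ℝ) + 1) ≤ 2 * m := by linarith
        have a2 : ((n : ℝ) + 1) ≤ 2 * (K * m) := by linarith
        calc ((m : ℝ) + 1) * (n + 1) ≤ (2 * m) * (2 * (K * m)) :=
              mul_le_mul a1 a2 (by positivity) (by positivity)
          _ = _ := by ring
      have k2 : ε * ((m + 1) * (n + 1)) ≤ ε * (4 * K * m * m) :=
        mul_le_mul_of_nonneg_left k1 hε.le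
      have k3 : ε * (4 * K * m * m) = (4 * K * m) * (ε * m) := by ring
      have k4 : (4 * (K : ℝ) * m) * (ε * m) ≤ (4 * K * m) * h :=
        mul_le_mul_of_nonneg_left hh1 (by positivity)
      have k5 : (4 * (K : ℝ) * m) * h ≤ 4 * (K + 1) * h * m := by
        have : (0 : ℝ) ≤ 4 * h * m := by positivity
        nlinarith
      have k6 : (a F : ℝ) ≤ 4 * (K + 1) * h * m := by linarith
      exact_mod_cast k6
    · refine Real.exp_le_exp.2 (neg_le_neg ?_)
      rw [mul_div_assoc', div_le_div_iff₀ hε (by linarith)]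
      have k1 : c₀ / 2 * h ≤ c₀ / 2 * (2 * (ε * m)) :=
        mul_le_mul_of_nonneg_left hh3 (by positivity)
      have k2 : c₀ / 2 * (2 * (ε * m)) = c₀ * m * ε := by ring
      linarith

/-- **The tails of the areas of the two sides of the interface.** -/
theorem result (K : ℕ) : ∃ c C : ℝ, 0 < c ∧ 0 < C ∧ ∀ m n : ℕ, 1 ≤ m → 1 ≤ n →
    m ≤ K * n → n ≤ K * m →
    (∀ h : ℕ, 1 ≤ h → (h : ℝ) ≤ c * m →
      (Real.exp (-(C * (m / h))) ≤ prob m n (NearFreeSides m n h) ∧
        prob m n (NearFreeSides m n h) ≤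
          prob m n (fun F => freeArea m n F ≤ 4 * (K + 1) * h * m) ∧
        prob m n (fun F => freeArea m n F ≤ 4 * (K + 1) * h * m) ≤ Real.exp (-(c * (m / h)))) ∧
      (Real.exp (-(C * (m / h))) ≤ prob m n (NearWiredSides m n h) ∧
        prob m n (NearWiredSides m n h) ≤
          prob m n (fun F => wiredArea m n F ≤ 4 * (K + 1) * h * m) ∧
        prob m n (fun F => wiredArea m n F ≤ 4 * (K + 1) * h * m) ≤
          Real.exp (-(c * (m / h))))) ∧
    (∀ ε : ℝ, C / m ≤ ε → ε ≤ c →
      (Real.exp (-(C / ε)) ≤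
          prob m n (fun F => (freeArea m n F : ℝ) ≤ ε * ((m + 1) * (n + 1))) ∧
        prob m n (fun F => (freeArea m n F : ℝ) ≤ ε * ((m + 1) * (n + 1))) ≤
          Real.exp (-(c / ε))) ∧
      (Real.exp (-(C / ε)) ≤
          prob m n (fun F => (wiredArea m n F : ℝ) ≤ ε * ((m + 1) * (n + 1))) ∧
        prob m n (fun F => (wiredArea m n F : ℝ) ≤ ε * ((m + 1) * (n + 1))) ≤
          Real.exp (-(c / ε)))) := by
  obtain ⟨c₀, C₀, hc₀, hC₀, H⟩ := tails K
  refine ⟨c₀ / 2, 8 * K * (K + 1) * C₀ + 4 * K * (K + 1) + 1 + C₀, by positivity, by positivity,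
    fun m n hm hn h1 h2 => ⟨fun h hh hhc => ?_, fun ε e1 e2 => ?_⟩⟩
  · have hmr : (0 : ℝ) ≤ m := Nat.cast_nonneg m
    have hhr : (0 : ℝ) < h := by exact_mod_cast hh
    have hq : (0 : ℝ) ≤ m / h := by positivity
    obtain ⟨⟨a1, a2, a3⟩, b1, b2, b3⟩ := H m n h hm hn h1 h2 hh (by nlinarith)
    have g1 : Real.exp (-((8 * K * (K + 1) * C₀ + 4 * K * (K + 1) + 1 + C₀) * (m / h))) ≤
        Real.exp (-(C₀ * (m / h))) := by
      refine Real.exp_le_exp.2 (neg_le_neg (mul_le_mul_of_nonneg_right ?_ hq))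
      have : (0 : ℝ) ≤ 8 * K * (K + 1) * C₀ + 4 * K * (K + 1) + 1 := by positivity
      linarith
    have g2 : Real.exp (-(c₀ * (m / h))) ≤ Real.exp (-(c₀ / 2 * (m / h))) :=
      Real.exp_le_exp.2 (neg_le_neg (mul_le_mul_of_nonneg_right (by linarith) hq))
    exact ⟨⟨g1.trans a1, a2, a3.trans g2⟩, g1.trans b1, b2, b3.trans g2⟩
  · refine ⟨scale K m n hm hn h1 h2 (freeArea m n) c₀ C₀ _ hc₀ hC₀ (by linarith) ?_ ε e1 e2,
      scale K m n hm hn h1 h2 (wiredArea m n) c₀ C₀ _ hc₀ hC₀ (by linarith) ?_ ε e1 e2⟩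
    · intro h hh hhc
      obtain ⟨⟨a1, a2, a3⟩, -⟩ := H m n h hm hn h1 h2 hh hhc
      exact ⟨a1.trans a2, a3⟩
    · intro h hh hhc
      obtain ⟨-, b1, b2, b3⟩ := H m n h hm hn h1 h2 hh hhc
      exact ⟨b1.trans b2, b3⟩

end Pool.Agent.Results.MP_216314_pr.AreaTails
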