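import Pool.Agent.Helper77K9.BC.Final

/-!
Critical bond percolation on `δ ℤ²` in a rectangle `D = (-A, B) × (0, H)`, with the counterclockwise
boundary arc from `a = t + i H` to `b = 0` wired and the other one dual-wired.  Which fixed sets of
boundary points are hit by the scaling limits of the exploration path?  For every weak limit, as
`δ → 0`, of the law of the trace of the exploration path (for the Hausdorff metric on nonempty
compact sets) and every σ-compact set `S` of points of the dual-wired arc near `b`, the probability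
that `S` is hit is, up to universal multiplicative constants, the capacity of `S` for the kernel
`(max(x, y) / |x - y|) ^ (1 / 3)`, the one of chordal SLE₆; and the set of the points of `S` which
are hit has dimension at most `dim S - 1 / 3`, with equality for the essential supremum.

Definitions (in `Pool.Agent.H934R2.Expl.Model`): `Rect` (the domain), `pt`, `Rect.verts`,
`Rect.edges` (the discrete domain), `Rect.wired`, `Rect.outer` (boundary condition), `Rect.clu`,
`Rect.dclu` (the two clusters), `Rect.path` (trace of the exploration path), `Rect.law` (its law,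
all configurations of the edges being equally likely).
-/

namespace Pool.Agent.Results.MP_216314_pr.BoundarySets

open MeasureTheory TopologicalSpace Filter Topology H934E
open scoped ENNReal

/-- The kernel `(max(x, y) / |x - y|) ^ (1 / 3)`, infinite for `x = y > 0`. -/
noncomputable def kernel (x y : ℝ) : ℝ≥0∞ :=
  (ENNReal.ofReal (max x y) / ENNReal.ofReal |x - y|) ^ ((1 : ℝ) / 3)

/-- The energy of a measure on the real line. -/
noncomputable def energy (ν : Measure ℝ) : ℝ≥0∞ := ∫⁻ x, ∫⁻ y, kernel x y ∂ν ∂ν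

/-- The capacity of `S`: the supremum of `1 / energy ν` over the probability measures `ν` which give
mass zero to the complement of `S`. -/
noncomputable def capacity (S : Set ℝ) : ℝ≥0∞ :=
  ⨆ (ν : Measure ℝ) (_ : IsProbabilityMeasure ν) (_ : ν Sᶜ = 0), (energy ν)⁻¹

/-- The points of `S` which belong to `K` (the real line contains the lower side of the rectangle,
`b = 0`). -/
def hits (K : NonemptyCompacts ℂ) (S : Set ℝ) : Set ℝ := {x : ℝ | x ∈ S ∧ (x : ℂ) ∈ K}

/-- Subsequential limits exist; in each of them, the hitting probabilities of the fixed boundary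
sets are comparable to their capacities, and the set of hit points has codimension `1 / 3`. -/
theorem result :
    (∀ (R : Rect) (δ : ℕ → ℝ) (hδ : ∀ i, 0 < δ i), Tendsto δ atTop (𝓝 0) →
      ∃ φ : ℕ → ℕ, StrictMono φ ∧ ∃ μ : ProbabilityMeasure (NonemptyCompacts ℂ),
        Tendsto (fun i => R.law (hδ (φ i))) atTop (𝓝 μ)) ∧
    ∃ c C : ℝ, 0 < c ∧ 0 < C ∧
      ∀ (R : Rect) (δ : ℕ → ℝ) (hδ : ∀ i, 0 < δ i), Tendsto δ atTop (𝓝 0) →
      ∀ μ : ProbabilityMeasure (NonemptyCompacts ℂ),
        Tendsto (fun i => R.law (hδ i)) atTop (𝓝 μ) →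
        (∀ S : Set ℝ, S ⊆ Set.Ioc 0 (min R.A (min R.B R.H) / 100) →
          ENNReal.ofReal c * capacity S ≤
            (μ : Measure (NonemptyCompacts ℂ)) {K | (hits K S).Nonempty}) ∧
        (∀ S : Set ℝ, IsSigmaCompact S → S ⊆ Set.Ioc 0 (min R.A (min R.B R.H) / 100) →
          (μ : Measure (NonemptyCompacts ℂ)) {K | (hits K S).Nonempty} ≤
            ENNReal.ofReal C * capacity S) ∧
        (∀ S : Set ℝ, S ⊆ Set.Ioc 0 (min R.A (min R.B R.H) / 16) →
          ∀ᵐ K ∂(μ : Measure (NonemptyCompacts ℂ)), dimH (hits K S) ≤ dimH S - 1 / 3 ∧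
            (μH[(1 / 3 : ℝ)] S = 0 → hits K S = ∅)) ∧
        (∀ S : Set ℝ, IsSigmaCompact S → S ⊆ Set.Ioc 0 (min R.A (min R.B R.H) / 100) →
          essSup (fun K : NonemptyCompacts ℂ => dimH (hits K S))
            (μ : Measure (NonemptyCompacts ℂ)) = dimH S - 1 / 3) := by
  refine ⟨fun R δ hδ hlim => R.exists_limit hδ hlim, ?_⟩
  obtain ⟨c, C, hc, hC, h⟩ := Pool.Agent.Helper77K9.BC.main
  refine ⟨c, C, hc, hC, fun R δ hδ hlim μ hμ => ?_⟩
  obtain ⟨h1, h2, h3, h4⟩ := h R δ hδ hlim μ hμ
  have e1 : ∀ S : Set ℝ, {K : NonemptyCompacts ℂ | (hits K S).Nonempty} =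
      Pool.Agent.Helper77K9.BC.HS S := by
    intro S
    ext K
    simp only [Pool.Agent.Helper77K9.BC.HS, hits, Set.Nonempty, Set.mem_ofPred_eq]
  have e2 : ∀ (K : NonemptyCompacts ℂ) (S : Set ℝ), hits K S = touch K ∩ S := by
    intro K S
    ext x
    simp only [hits, touch, Set.mem_inter_iff, Set.mem_ofPred_eq]
    tauto
  refine ⟨fun S hS => ?_, fun S hS hSb => ?_, fun S hS => ?_, fun S hS hSb => ?_⟩
  · rw [e1]
    exact h1 S hS
  · rw [e1]
    exact h2 S hS hSb
  · simp only [e2]
    exact h3 S hS
  · simp only [e2]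
    exact h4 S hS hSb

end Pool.Agent.Results.MP_216314_pr.BoundarySets
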