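import Pool.Agent.Helper49K9.LP.Fin

/-!
The critical FK interface for `q = 1` (bond percolation with `p = 1 / 2`) in the rectangle of the
question, of bounded aspect ratio, with the left and lower sides wired and the right and upper
sides free: the probability that a vertex lies on a given side of the interface (Schramm's
left-passage formula up to constants), for all vertices, uniformly up to the sides, the corners and
the two ends of the interface.
-/

namespace Pool.Agent.Results.MP_216314_pr.LeftPassage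

open Finset

/-- Vertices of the square lattice. -/
abbrev Vertex := ℤ × ℤ

/-- Faces of the square lattice: `(x, y)` is the square `[x, x + 1] × [y, y + 1]`. -/
abbrev Face := ℤ × ℤ

/-- Edges: `(x, y, true)` joins `(x, y)` to `(x + 1, y)` and `(x, y, false)` joins `(x, y)` to
`(x, y + 1)`. -/
abbrev Edge := ℤ × ℤ × Bool

/-- First endpoint of an edge. -/
def src (e : Edge) : Vertex := (e.1, e.2.1)

/-- Second endpoint of an edge. -/
def tgt (e : Edge) : Vertex := if e.2.2 then (e.1 + 1, e.2.1) else (e.1, e.2.1 + 1)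

/-- The face below or to the left of an edge. -/
def lface (e : Edge) : Face := if e.2.2 then (e.1, e.2.1 - 1) else (e.1 - 1, e.2.1)

/-- The face above or to the right of an edge. -/
def rface (e : Edge) : Face := (e.1, e.2.1)

/-- `u` and `v` are joined by an edge of `F`. -/
def Adj (F : Set Edge) (u v : Vertex) : Prop :=
  ∃ e ∈ F, (src e = u ∧ tgt e = v) ∨ (src e = v ∧ tgt e = u)

/-- `u` and `v` are joined by a path of edges of `F`. -/
def Conn (F : Set Edge) (u v : Vertex) : Prop := Relation.ReflTransGen (Adj F) u v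

/-- The faces `f` and `g` are separated by an edge of `F`. -/
def DualAdj (F : Set Edge) (f g : Face) : Prop :=
  ∃ e ∈ F, (lface e = f ∧ rface e = g) ∨ (lface e = g ∧ rface e = f)

/-- `f` and `g` are joined by a dual path which crosses edges of `F` only. -/
def DualConn (F : Set Edge) (f g : Face) : Prop := Relation.ReflTransGen (DualAdj F) f g

/-- The edges of the rectangle `[0, m] × [0, n]`. -/
noncomputable def rect (m n : ℕ) : Finset Edge :=
  (Finset.Icc (0 : ℤ) m ×ˢ Finset.Icc (0 : ℤ) n ×ˢ (Finset.univ : Finset Bool)).filter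
    (fun e => (tgt e).1 ≤ m ∧ (tgt e).2 ≤ n)

/-- `u` is a vertex of the left or of the lower side of `[0, m] × [0, n]`. -/
def WiredSide (m n : ℕ) (u : Vertex) : Prop :=
  (u.1 = 0 ∧ 0 ≤ u.2 ∧ u.2 ≤ n) ∨ (u.2 = 0 ∧ 0 ≤ u.1 ∧ u.1 ≤ m)

/-- `f` is one of the faces next to `[0, m] × [0, n]`, across the right or the upper side. -/
def FreeSide (m n : ℕ) (f : Face) : Prop :=
  (f.1 = m ∧ 0 ≤ f.2 ∧ f.2 < n) ∨ (f.2 = n ∧ 0 ≤ f.1 ∧ f.1 < m)

/-- The dual cluster of the free sides. -/
def free (m n : ℕ) (F : Finset Edge) : Set Face :=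
  {f | ∃ g, FreeSide m n g ∧ DualConn (↑(rect m n \ F) : Set Edge) g f}

/-- The edges of the rectangle which are crossed by the dual cluster of the free sides: the closed
edges whose two faces belong to this cluster. -/
def crossed (m n : ℕ) (F : Finset Edge) : Set Edge :=
  {e | e ∈ rect m n ∧ e ∉ F ∧ lface e ∈ free m n F ∧ rface e ∈ free m n F}

/-- The vertex `v` lies on the same side of the interface as the wired sides: it can be joined to
the wired sides by a path of the rectangle which does not cross the dual cluster of the free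
sides. -/
def OnWiredSide (m n : ℕ) (v : Vertex) (F : Finset Edge) : Prop :=
  ∃ u, WiredSide m n u ∧ Conn (↑(rect m n) \ crossed m n F) u v

/-- The vertex `v` lies on the same side of the interface as the free sides: it is separated from
the wired sides by the dual cluster of the free sides. -/
def OnFreeSide (m n : ℕ) (v : Vertex) (F : Finset Edge) : Prop := ¬ OnWiredSide m n v F

open Classical in
/-- The probability of `E` when every edge of the rectangle `[0, m] × [0, n]` is open with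
probability `1 / 2` independently (the critical FK measure for `q = 1`); `F` is the set of the
open edges. -/
noncomputable def prob (m n : ℕ) (E : Finset Edge → Prop) : ℝ :=
  (((rect m n).powerset.filter E).card : ℝ) / 2 ^ (rect m n).card

theorem rect_eq (m n : ℕ) : rect m n = H974.RE 0 m 0 n := by
  ext e
  obtain ⟨x, y, _ | _⟩ := e
  · rw [H974.mem_RE_false]
    unfold rect
    rw [Finset.mem_filter]
    simp only [tgt, Finset.mem_product, Finset.mem_Icc,
      Finset.mem_univ, and_true, Bool.false_eq_true, if_false]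
    omega
  · rw [H974.mem_RE_true]
    unfold rect
    rw [Finset.mem_filter]
    simp only [tgt, Finset.mem_product, Finset.mem_Icc,
      Finset.mem_univ, and_true, if_true]
    omega

theorem prob_eq (m n : ℕ) (E E' : Finset Edge → Prop)
    (h : ∀ F, F ⊆ H974.RE 0 m 0 n → (E F ↔ E' F)) :
    prob m n E = H731C.P2 (H974.RE 0 m 0 n) E' := by
  unfold prob H731C.P2 H974.Pr
  rw [H973.Ex_half, rect_eq, Finset.card_filter]
  push_cast
  rw [div_eq_mul_inv, mul_comm]
  congr 1
  · rw [one_div, inv_pow]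
  · apply Finset.sum_congr rfl
    intro F hF
    have hF' : F ⊆ H974.RE 0 m 0 n := Finset.mem_powerset.mp hF
    unfold H974.ind
    by_cases h5 : E F
    · rw [if_pos h5, if_pos ((h F hF').mp h5)]
    · rw [if_neg h5, if_neg (fun h6 => h5 ((h F hF').mpr h6))]

theorem wired_iff {m n : ℕ} (hm : 1 ≤ m) (hn : 1 ≤ n) (u : Vertex) :
    WiredSide m n u ↔ ∃ i : ℤ, (-(n : ℤ) ≤ i ∧ i ≤ m) ∧ H731A.bd m n i = u := by
  have hm' : (1 : ℤ) ≤ m := by exact_mod_cast hm
  have hn' : (1 : ℤ) ≤ n := by exact_mod_cast hn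
  constructor
  · rintro (⟨h1, h2, h3⟩ | ⟨h1, h2, h3⟩)
    · refine ⟨-u.2, by omega, ?_⟩
      rw [H731A.bd_neg hm' hn' (by omega) (by omega), neg_neg, ← h1]
    · refine ⟨u.1, by omega, ?_⟩
      rw [H731A.bd_bot hm' hn' h2 h3, ← h1]
  · rintro ⟨i, hi, rfl⟩
    rcases le_total i 0 with h | h
    · rw [H731A.bd_neg hm' hn' hi.1 h]
      exact Or.inl ⟨rfl, show (0 : ℤ) ≤ -i by omega, show -i ≤ n by omega⟩
    · rw [H731A.bd_bot hm' hn' h hi.2]
      exact Or.inr ⟨rfl, h, hi.2⟩

theorem free_iff {m n : ℕ} (hm : 1 ≤ m) (hn : 1 ≤ n) (f : Face) :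
    FreeSide m n f ↔ ∃ j : ℤ, ((m : ℤ) ≤ j ∧ j < -(n : ℤ) + 2 * (m + n)) ∧
      H731A.ofc m n j = f := by
  have hm' : (1 : ℤ) ≤ m := by exact_mod_cast hm
  have hn' : (1 : ℤ) ≤ n := by exact_mod_cast hn
  constructor
  · rintro (⟨h1, h2, h3⟩ | ⟨h1, h2, h3⟩)
    · refine ⟨m + f.2, by omega, ?_⟩
      rw [H731A.DPar.ofc_right hm' hn' (by omega) (by omega)]
      ext
      · exact h1.symm
      · show (m : ℤ) + f.2 - m = f.2; ring
    · refine ⟨2 * m + n - f.1 - 1, by omega, ?_⟩
      rw [H731A.DPar.ofc_top hm' hn' (by omega) (by omega)]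
      ext
      · show 2 * (m : ℤ) + n - (2 * m + n - f.1 - 1) - 1 = f.1; ring
      · exact h1.symm
  · rintro ⟨j, hj, rfl⟩
    rcases lt_or_ge j (m + n) with h | h
    · rw [H731A.DPar.ofc_right hm' hn' hj.1 h]
      exact Or.inl ⟨rfl, show (0 : ℤ) ≤ j - m by omega, show j - m < n by omega⟩
    · rw [H731A.DPar.ofc_top hm' hn' h (by omega)]
      exact Or.inr ⟨rfl, show (0 : ℤ) ≤ 2 * m + n - j - 1 by omega,
        show 2 * (m : ℤ) + n - j - 1 < m by omega⟩

theorem FB_iff {m n : ℕ} (hm : 1 ≤ m) (hn : 1 ≤ n) {F : Finset Edge} (f : Face) :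
    f ∈ free m n F ↔ H731G.FB m n (-(n : ℤ)) m f F := by
  have e2 : ((↑F : Set H974.Edg)ᶜ ∩ ↑(H974.RE 0 m 0 n)) = ↑(rect m n \ F) := by
    rw [rect_eq, Finset.coe_sdiff, Set.sdiff_eq, Set.inter_comm]
  constructor
  · rintro ⟨g, hg, h⟩
    obtain ⟨j, hj, rfl⟩ := (free_iff hm hn g).1 hg
    refine ⟨j, hj, ?_⟩
    rw [e2]; exact h
  · rintro ⟨j, hj, h⟩
    rw [e2] at h
    exact ⟨_, (free_iff hm hn _).2 ⟨j, hj, rfl⟩, h⟩

theorem side_iff {m n : ℕ} (hm : 1 ≤ m) (hn : 1 ≤ n) {F : Finset Edge} (v : Vertex) :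
    OnWiredSide m n v F ↔ H49LP.WS m n (-(n : ℤ)) m v F := by
  have e : (↑(rect m n) \ crossed m n F : Set Edge) =
      ↑(H974.RE 0 m 0 n \ H49LP.bar m n (-(n : ℤ)) m F) := by
    ext e
    rw [Set.mem_sdiff, Finset.mem_coe, Finset.mem_coe, Finset.mem_sdiff, H49LP.mem_bar, rect_eq]
    unfold crossed
    rw [Set.mem_ofPred_eq, rect_eq, FB_iff hm hn, FB_iff hm hn]
    rfl
  constructor
  · rintro ⟨u, hu, h⟩
    obtain ⟨i, hi, rfl⟩ := (wired_iff hm hn u).1 hu
    refine ⟨i, hi, ?_⟩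
    rw [← e]; exact h
  · rintro ⟨i, hi, h⟩
    rw [← e] at h
    exact ⟨_, (wired_iff hm hn _).2 ⟨i, hi, rfl⟩, h⟩

/-- **Left-passage formula up to constants.** -/
theorem result (K : ℕ) : ∃ c₁ c₂ : ℝ, 0 < c₁ ∧ 0 < c₂ ∧ ∀ m n x y : ℕ, 1 ≤ m → 1 ≤ n →
    m ≤ K * n → n ≤ K * m → x ≤ m → y ≤ n →
    (c₁ * (((x : ℝ) * y) / (((m : ℝ) + 1 - x + y) * ((n : ℝ) + 1 - y + x))) ^ ((1 : ℝ) / 3) ≤
        prob m n (OnFreeSide m n (x, y)) ∧
      prob m n (OnFreeSide m n (x, y)) ≤
        c₂ * (((x : ℝ) * y) / (((m : ℝ) + 1 - x + y) * ((n : ℝ) + 1 - y + x))) ^ ((1 : ℝ) / 3)) ∧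
    (c₁ * ((((m : ℝ) + 1 - x) * ((n : ℝ) + 1 - y)) /
          (((m : ℝ) + 1 - x + y) * ((n : ℝ) + 1 - y + x))) ^ ((1 : ℝ) / 3) ≤
        prob m n (OnWiredSide m n (x, y)) ∧
      prob m n (OnWiredSide m n (x, y)) ≤
        c₂ * ((((m : ℝ) + 1 - x) * ((n : ℝ) + 1 - y)) /
          (((m : ℝ) + 1 - x + y) * ((n : ℝ) + 1 - y + x))) ^ ((1 : ℝ) / 3)) := by
  obtain ⟨c₁, c₂, h1, h2, h⟩ := H49LP.final K
  refine ⟨c₁, c₂, h1, h2, ?_⟩
  intro m n x y hm hn hmn hnm hx hy
  have e1 := prob_eq m n (OnFreeSide m n (x, y))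
    (fun F => ¬ H49LP.WS m n (-(n : ℤ)) m ((x : ℤ), (y : ℤ)) F)
    (fun F _ => not_congr (side_iff hm hn _))
  have e2 := prob_eq m n (OnWiredSide m n (x, y)) (H49LP.WS m n (-(n : ℤ)) m ((x : ℤ), (y : ℤ)))
    (fun F _ => side_iff hm hn _)
  rw [e1, e2]
  have := h m n x y (by exact_mod_cast hm) (by exact_mod_cast hn) (by exact_mod_cast hmn)
    (by exact_mod_cast hnm) (by omega) (by omega)
  unfold H49LP.Ff H49LP.Wf at this
  push_cast at this
  exact this

end Pool.Agent.Results.MP_216314_pr.LeftPassage
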