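import Pool.Agent.Helper38K9.NI.Asm
import Pool.Agent.Helper38K9.NI.UpQ
import Pool.Agent.Helper38K9.NI.SelT

/-!
Critical bond percolation on `δ ℤ²` (`q = 1`) in a rectangle `D = (-A, B) × (0, H)`, with the
counterclockwise boundary arc from `a = t + i H` to `b = 0` wired and the other one dual-wired.
Let `G` be a random set of edges of density `t`, independent of the critical configuration `F`. A
rewriting is a configuration which agrees with `F` off `G` (the edges of `G` may be rewritten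
arbitrarily, knowing `F` and `G`). The scale of `t` at which rewriting matters is exactly
`δ^(3/4)`:

(1) all rewritings have exploration paths, wired clusters and dual clusters of the free arc within
`ε` of each other for the Hausdorff metric, but for an event of probability at most
`C ε^(-2) t δ^(-3/4)`; so the interface is stable under noise of intensity `o(δ^(3/4))`, and in
dynamical percolation uniformly over time intervals of length `o(δ^(3/4))`;

(2) but for an event of probability at most `C exp (- c (t δ^(-3/4))^(4/3))`, every subset `K` of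
the closed rectangle which contains `a` and `b` and has connected intersections with all horizontal
bands (the graph over the vertical axis of a continuous function, one of the two boundary arcs, the
whole closed rectangle, ...) is within `ε` of the exploration path of a rewriting.

Definitions (in `Pool.Agent.H934R2.Expl.Model`): `Rect` (the domain), `Rect.edges` (the edges of the
discrete domain), `Rect.clu`, `Rect.dclu` (the two clusters), `Rect.trace` (the trace of the
exploration path of a set of open edges), `pt` (the point of the plane at a vertex).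

Authors: helper38, with helper57.
-/

namespace Pool.Agent.Results.MP_216314_pr.SparseChanges

open MeasureTheory TopologicalSpace Finset H974 H934E

/-- `F` is a random subset of the finite set `S`; it contains the elements of `S` independently of
each other, with probability `p`. -/
def RandomSubset {Ω : Type} [MeasurableSpace Ω] (μ : Measure Ω) (S : Finset Edg) (p : ℝ)
    (F : Ω → Finset Edg) : Prop :=
  (∀ ω, F ω ⊆ S) ∧ ∀ T : Finset Edg, T ⊆ S → MeasurableSet {ω | F ω = T} ∧
    μ {ω | F ω = T} = ENNReal.ofReal ((∏ _e ∈ T, p) * ∏ _e ∈ S \ T, (1 - p))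

/-- `F'` is a configuration of the edges of `S` which agrees with `F` off `G`. -/
def AgreesOff (S F G F' : Finset Edg) : Prop :=
  F' ⊆ S ∧ ∀ e ∈ S, e ∉ G → (e ∈ F' ↔ e ∈ F)

/-- The points of the plane at the vertices of the wired cluster. -/
noncomputable def wiredCluster (R : Rect) (δ : ℝ) (F : Finset Edg) : Set ℂ :=
  H934E.pt δ '' R.clu δ F

/-- The centres of the faces of the dual cluster of the free arc. -/
noncomputable def dualCluster (R : Rect) (δ : ℝ) (F : Finset Edg) : Set ℂ :=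
  (fun f : Vtx => (⟨δ * (f.1 + 1/2), δ * (f.2 + 1 + 1/2)⟩ : ℂ)) '' R.dclu δ F

/-- The subsets of the closed rectangle which contain the end points `b = 0` and `a = t + i H` of
the interface and have connected (nonempty) intersections with all horizontal bands. -/
def Target (R : Rect) (K : Set ℂ) : Prop :=
  K ⊆ {z | (-R.A ≤ z.re ∧ z.re ≤ R.B) ∧ 0 ≤ z.im ∧ z.im ≤ R.H} ∧
    (⟨0, 0⟩ : ℂ) ∈ K ∧ (⟨R.t, R.H⟩ : ℂ) ∈ K ∧
    ∀ y₁ y₂ : ℝ, 0 ≤ y₁ → y₁ ≤ y₂ → y₂ ≤ R.H → IsConnected (K ∩ {z | y₁ ≤ z.im ∧ z.im ≤ y₂})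

theorem result :
    (∀ R : Rect, ∃ C δ0 : ℝ, 0 < C ∧ 0 < δ0 ∧ ∀ ε : ℝ, 0 < ε → ε ≤ 1 →
      ∀ (δ : ℝ) (hδ : 0 < δ), δ < δ0 → 100 * δ < ε → ∀ t : ℝ, 0 ≤ t → t ≤ 1 →
      ∀ (Ω : Type) [MeasurableSpace Ω] (μ : Measure Ω) (F G : Ω → Finset Edg),
        RandomSubset μ (R.edges δ) (1/2) F → RandomSubset μ (R.edges δ) t G →
        (∀ T U : Finset Edg, T ⊆ R.edges δ → U ⊆ R.edges δ →
          μ {ω | F ω = T ∧ G ω = U} = μ {ω | F ω = T} * μ {ω | G ω = U}) →
        μ {ω | ∃ F₁ F₂ : Finset Edg,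
            AgreesOff (R.edges δ) (F ω) (G ω) F₁ ∧ AgreesOff (R.edges δ) (F ω) (G ω) F₂ ∧
            (ε < dist (R.trace hδ F₁) (R.trace hδ F₂) ∨
              ε < Metric.hausdorffDist (wiredCluster R δ F₁) (wiredCluster R δ F₂) ∨
              ε < Metric.hausdorffDist (dualCluster R δ F₁) (dualCluster R δ F₂))} ≤
          ENNReal.ofReal (C * (t * δ ^ (-(3/4 : ℝ))) / ε ^ 2)) ∧
    (∀ (R : Rect) (ε : ℝ), 0 < ε → ∃ c C δ0 : ℝ, 0 < c ∧ 0 < C ∧ 0 < δ0 ∧
      ∀ (δ : ℝ) (hδ : 0 < δ), δ < δ0 → ∀ t : ℝ, 0 ≤ t → t ≤ 1 →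
      ∀ (Ω : Type) [MeasurableSpace Ω] (μ : Measure Ω) (F G : Ω → Finset Edg),
        RandomSubset μ (R.edges δ) (1/2) F → RandomSubset μ (R.edges δ) t G →
        (∀ T U : Finset Edg, T ⊆ R.edges δ → U ⊆ R.edges δ →
          μ {ω | F ω = T ∧ G ω = U} = μ {ω | F ω = T} * μ {ω | G ω = U}) →
        μ {ω | ¬ ∀ K : Set ℂ, Target R K → ∃ F' : Finset Edg,
            AgreesOff (R.edges δ) (F ω) (G ω) F' ∧
            Metric.hausdorffDist (R.trace hδ F' : Set ℂ) K ≤ ε} ≤
          ENNReal.ofReal (C * Real.exp (-(c * (t * δ ^ (-(3/4 : ℝ))) ^ (4/3 : ℝ))))) := by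
  refine ⟨?_, ?_⟩
  · intro R
    obtain ⟨C, δ0, hC, hδ0, h⟩ := NI38.sparse R
    refine ⟨C, δ0, hC, hδ0, ?_⟩
    intro ε hε hε1 δ hδ hlt h100 t h0 h1 Ω _ μ F G hF hG hind
    refine (measure_mono ?_).trans (h ε hε hε1 δ hδ hlt h100 t h0 h1 Ω μ F G hF hG hind)
    rintro ω ⟨F₁, F₂, h₁, h₂, hd⟩
    refine ⟨F₁, F₂, h₁, h₂, fun hc => ?_⟩
    rcases hd with hd | hd | hd
    · exact absurd hd (not_lt.mpr hc.1)
    · exact absurd hd (not_lt.mpr hc.2.1)
    · exact absurd hd (not_lt.mpr hc.2.2)
  · intro R ε hε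
    obtain ⟨c, C, δ0, hc, hC, hδ0, h⟩ := NI38.anyK NI38.sel' NI38.upQ R ε hε
    refine ⟨c, C, δ0, hc, hC, hδ0, ?_⟩
    intro δ hδ hlt t h0 h1 Ω _ μ F G hF hG hind
    refine (measure_mono ?_).trans (h δ hδ hlt t h0 h1 Ω μ F G hF hG hind)
    intro ω hω hc
    apply hω
    intro K hK
    obtain ⟨F', a1, b1⟩ := hc K hK
    exact ⟨F', a1, b1⟩

end Pool.Agent.Results.MP_216314_pr.SparseChanges
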